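import Pool.Agent.Y752.QF.Stm3

/-!
# Project QF: the weighted sum of the errors with exponent `4/3`
-/

set_option autoImplicit false

namespace Pool.Agent.Y473.QF

open Pool.Agent.Y752.QF

noncomputable section

theorem decomp (g : ℕ → ℝ) (hg : ∀ m, 0 ≤ g m) (Z : ℕ) :
    ∑ m ∈ Finset.Icc 1 Z, g m ≤ ∑ l ∈ Finset.Icc 1 Z,
      ∑ n ∈ (Finset.Icc 1 (Z / l ^ 2)).filter Squarefree, g (l ^ 2 * n) := by
  classical
  have hex : ∀ m : ℕ, ∃ q : ℕ × ℕ, q.1 ^ 2 * q.2 = m ∧ Squarefree q.2 := by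
    intro m
    obtain ⟨a, b, h1, h2⟩ := Nat.sq_mul_squarefree m
    exact ⟨(b, a), h1, h2⟩
  choose q hq1 hq2 using hex
  rw [Finset.sum_sigma']
  have h1 : ∑ m ∈ Finset.Icc 1 Z, g m =
      ∑ s ∈ (Finset.Icc 1 Z).image (fun m => (⟨(q m).1, (q m).2⟩ : Σ _ : ℕ, ℕ)),
        g (s.1 ^ 2 * s.2) := by
    rw [Finset.sum_image]
    · exact Finset.sum_congr rfl fun m _ => by simp [hq1 m]
    · intro m _ m' _ h
      simp only [Sigma.mk.injEq, heq_eq_eq] at h
      rw [← hq1 m, ← hq1 m', h.1, h.2]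
  rw [h1]
  apply Finset.sum_le_sum_of_subset_of_nonneg
  · intro s hs
    rw [Finset.mem_image] at hs
    obtain ⟨m, hm, rfl⟩ := hs
    rw [Finset.mem_Icc] at hm
    have e := hq1 m
    have hl : 1 ≤ (q m).1 := by
      rcases Nat.eq_zero_or_pos (q m).1 with h | h
      · rw [h] at e
        simp at e
        omega
      · exact h
    have hn : 1 ≤ (q m).2 := by
      rcases Nat.eq_zero_or_pos (q m).2 with h | h
      · rw [h] at e
        simp at e
        omega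
      · exact h
    have hle : (q m).1 ≤ Z := by
      calc (q m).1 ≤ (q m).1 ^ 2 * (q m).2 := by nlinarith
        _ = m := e
        _ ≤ Z := hm.2
    simp only [Finset.mem_sigma, Finset.mem_Icc, Finset.mem_filter]
    refine ⟨⟨hl, hle⟩, ⟨hn, ?_⟩, hq2 m⟩
    rw [Nat.le_div_iff_mul_le (by positivity)]
    calc (q m).2 * (q m).1 ^ 2 = m := by rw [mul_comm]; exact e
      _ ≤ Z := hm.2
  · intro s _ _
    exact hg _

theorem inv_sqrt_sum (N : ℕ) : ∑ n ∈ Finset.Icc 1 N, 1 / Real.sqrt n ≤ 2 * Real.sqrt N := by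
  induction N with
  | zero => simp
  | succ N ih =>
    rw [Finset.sum_Icc_succ_top (by omega)]
    have h1 : 0 < Real.sqrt ((N + 1 : ℕ) : ℝ) := Real.sqrt_pos.2 (by positivity)
    have h2 : Real.sqrt ((N + 1 : ℕ) : ℝ) ^ 2 = N + 1 := by
      rw [Real.sq_sqrt (by positivity)]
      push_cast
      ring
    have h3 : Real.sqrt (N : ℝ) ^ 2 = N := Real.sq_sqrt (by positivity)
    have h4 : 0 ≤ Real.sqrt (N : ℝ) := Real.sqrt_nonneg _
    have h5 : 1 / Real.sqrt ((N + 1 : ℕ) : ℝ) ≤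
        2 * Real.sqrt ((N + 1 : ℕ) : ℝ) - 2 * Real.sqrt (N : ℝ) := by
      rw [div_le_iff₀ h1]
      nlinarith [sq_nonneg (Real.sqrt ((N + 1 : ℕ) : ℝ) - Real.sqrt (N : ℝ))]
    linarith

theorem inv_sq_sum (N : ℕ) : ∑ l ∈ Finset.Icc 1 N, 1 / (l : ℝ) ^ 2 ≤ 2 := by
  have h : ∀ N : ℕ, ∑ l ∈ Finset.Icc 1 (N + 1), 1 / (l : ℝ) ^ 2 ≤ 2 - 1 / ((N : ℝ) + 1) := by
    intro N
    induction N with
    | zero => norm_num
    | succ N ih =>
      rw [Finset.sum_Icc_succ_top (by omega)]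
      have h1 : 1 / (((N + 1 + 1 : ℕ) : ℝ)) ^ 2 ≤ 1 / ((N : ℝ) + 1) - 1 / ((N : ℝ) + 1 + 1) := by
        push_cast
        rw [div_sub_div _ _ (by positivity) (by positivity), div_le_div_iff₀ (by positivity)
          (by positivity)]
        nlinarith
      have h2 : ((N + 1 : ℕ) : ℝ) + 1 = (N : ℝ) + 1 + 1 := by push_cast; ring
      rw [h2]
      linarith
  rcases Nat.eq_zero_or_pos N with h0 | h0
  · rw [h0]
    norm_num
  · obtain ⟨M, rfl⟩ : ∃ M, N = M + 1 := ⟨N - 1, by omega⟩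
    have := h M
    have h3 : 0 ≤ 1 / ((M : ℝ) + 1) := by positivity
    linarith

theorem dyad (f : ℕ → ℝ) (hf : ∀ n, 0 ≤ f n) (W : ℕ) (Y K : ℝ) (hK : 0 ≤ K)
    (h : ∀ M : ℕ, 1 ≤ M → Y < M → M ≤ 2 * W →
      ∑ n ∈ (Finset.Icc 1 M).filter Squarefree, f n ≤ K * M) :
    ∑ n ∈ ((Finset.Icc 1 W).filter Squarefree).filter (fun n : ℕ => Y < n), f n / n ≤
      (Nat.log 2 W + 1 : ℕ) * (2 * K) := by
  classical
  set A := ((Finset.Icc 1 W).filter Squarefree).filter (fun n : ℕ => Y < n) with hA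
  have hmaps : ∀ n ∈ A, Nat.log 2 n ∈ Finset.range (Nat.log 2 W + 1) := by
    intro n hn
    rw [hA, Finset.mem_filter, Finset.mem_filter, Finset.mem_Icc] at hn
    rw [Finset.mem_range]
    have := Nat.log_mono_right (b := 2) hn.1.1.2
    omega
  rw [← Finset.sum_fiberwise_of_maps_to hmaps]
  calc ∑ k ∈ Finset.range (Nat.log 2 W + 1), ∑ n ∈ A with Nat.log 2 n = k, f n / n
      ≤ ∑ k ∈ Finset.range (Nat.log 2 W + 1), 2 * K := ?_
    _ = (Nat.log 2 W + 1 : ℕ) * (2 * K) := by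
      rw [Finset.sum_const, Finset.card_range, nsmul_eq_mul]
  refine Finset.sum_le_sum fun k _ => ?_
  rcases (A.filter (fun n => Nat.log 2 n = k)).eq_empty_or_nonempty with h0 | ⟨n0, hn0⟩
  · rw [h0, Finset.sum_empty]
    linarith
  have hmem : ∀ n ∈ A.filter (fun n => Nat.log 2 n = k),
      1 ≤ n ∧ n ≤ W ∧ Squarefree n ∧ Y < n ∧ 2 ^ k ≤ n ∧ n < 2 ^ (k + 1) := by
    intro n hn
    rw [Finset.mem_filter, hA, Finset.mem_filter, Finset.mem_filter, Finset.mem_Icc] at hn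
    obtain ⟨⟨⟨⟨h1, h2⟩, h3⟩, h4⟩, h5⟩ := hn
    refine ⟨h1, h2, h3, h4, ?_, ?_⟩
    · rw [← h5]
      exact Nat.pow_log_le_self 2 (by omega)
    · rw [← h5]
      exact Nat.lt_pow_succ_log_self (by norm_num) n
  obtain ⟨-, a2, -, a4, a5, a6⟩ := hmem n0 hn0
  have hM := h (2 ^ (k + 1)) Nat.one_le_two_pow (by
    refine a4.trans ?_
    exact_mod_cast a6) (by
    rw [pow_succ]
    omega)
  have hk0 : (0 : ℝ) < 2 ^ k := by positivity
  calc ∑ n ∈ A with Nat.log 2 n = k, f n / n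
      ≤ ∑ n ∈ A with Nat.log 2 n = k, f n / 2 ^ k := by
        refine Finset.sum_le_sum fun n hn => ?_
        apply div_le_div_of_nonneg_left (hf n) hk0
        exact_mod_cast (hmem n hn).2.2.2.2.1
    _ = (∑ n ∈ A with Nat.log 2 n = k, f n) / 2 ^ k := by rw [Finset.sum_div]
    _ ≤ (∑ n ∈ (Finset.Icc 1 (2 ^ (k + 1))).filter Squarefree, f n) / 2 ^ k := by
        apply div_le_div_of_nonneg_right _ hk0.le
        apply Finset.sum_le_sum_of_subset_of_nonneg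
        · intro n hn
          obtain ⟨b1, b2, b3, b4, b5, b6⟩ := hmem n hn
          rw [Finset.mem_filter, Finset.mem_Icc]
          exact ⟨⟨b1, b6.le⟩, b3⟩
        · intro n _ _
          exact hf n
    _ ≤ (K * (2 ^ (k + 1) : ℕ)) / 2 ^ k := div_le_div_of_nonneg_right hM hk0.le
    _ = 2 * K := by
        push_cast
        rw [pow_succ]
        field_simp

/-- the error at `l ^ 2 * n`, `n` squarefree and not one -/
theorem Ee_eq (h3 : S_IN) (b : Bool) (X l n : ℕ) (hl : 1 ≤ l) (hn : Squarefree n) (hn1 : n ≠ 1) :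
    Ee b X (l ^ 2 * n) = ∑ p ∈ (QFs b X).filter (fun p => Nat.Coprime p.1 l), cv p n := by
  classical
  have hns : ¬ IsSquare (l ^ 2 * n) := by
    rintro ⟨r, hr⟩
    have h1 : l ^ 2 ∣ r ^ 2 := ⟨n, by rw [hr]; ring⟩
    obtain ⟨s, rfl⟩ := (Nat.pow_dvd_pow_iff (by norm_num)).1 h1
    have h2 : n = s * s := by
      have : l ^ 2 * n = l ^ 2 * (s * s) := by rw [hr]; ring
      exact Nat.eq_of_mul_eq_mul_left (by positivity) this
    have h4 := hn s (by rw [h2])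
    rw [Nat.isUnit_iff] at h4
    apply hn1
    rw [h2, h4]
  unfold Ee mm
  rw [if_neg hns, mul_zero, Complex.ofReal_zero, sub_zero, Finset.sum_filter]
  refine Finset.sum_congr rfl fun p hp => ?_
  have hp' : p ∈ QFset b X := by
    unfold QFs at hp
    rw [dif_pos (h3 b X).1] at hp
    exact (Set.Finite.mem_toFinset _).1 hp
  obtain ⟨q1, q2, q3, q4, q5, q6⟩ := hp'
  have e1 : cv p (l ^ 2 * n) = (p.2 (l : ZMod p.1)) ^ 2 * cv p n := by
    unfold cv
    push_cast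
    rw [map_mul, map_pow]
  rw [e1]
  by_cases hc : Nat.Coprime p.1 l
  · rw [if_pos hc]
    have hu : IsUnit (l : ZMod p.1) := (ZMod.isUnit_iff_coprime l p.1).2 hc.symm
    have e2 : (p.2 (l : ZMod p.1)) ^ 2 = 1 := by
      have := congrArg (fun χ : DirichletCharacter ℂ p.1 => χ (l : ZMod p.1)) q4
      simp only [MulChar.pow_apply' _ two_ne_zero] at this
      rw [this]
      exact MulChar.one_apply hu
    rw [e2, one_mul]
  · rw [if_neg hc]
    have hu : ¬ IsUnit (l : ZMod p.1) := by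
      intro h
      exact hc ((ZMod.isUnit_iff_coprime l p.1).1 h).symm
    rw [MulChar.map_nonunit _ hu]
    ring

theorem log_bd (e : ℝ) (he : 0 < e) (Z W : ℕ) (hZ : 1 ≤ Z) (hW : W ≤ Z) :
    ((Nat.log 2 W + 1 : ℕ) : ℝ) ≤ (2 / e + 1) * (Z : ℝ) ^ e := by
  have hZ' : (1 : ℝ) ≤ Z := by exact_mod_cast hZ
  have h1 : (Nat.log 2 W : ℝ) ≤ Nat.log 2 Z := by exact_mod_cast Nat.log_mono_right hW
  have h2 : (Nat.log 2 Z : ℝ) * Real.log 2 ≤ Real.log Z := by
    have h3 : ((2 : ℝ) ^ Nat.log 2 Z) ≤ Z := by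
      exact_mod_cast Nat.pow_log_le_self 2 (by omega)
    have h4 := Real.log_le_log (by positivity) h3
    rwa [Real.log_pow] at h4
  have h5 : Real.log Z ≤ (Z : ℝ) ^ e / e := Real.log_le_rpow_div (by positivity) he
  have h6 : (1 / 2 : ℝ) ≤ Real.log 2 := by
    have := Real.log_two_gt_d9
    linarith
  have h7 : (1 : ℝ) ≤ (Z : ℝ) ^ e := Real.one_le_rpow hZ' he.le
  have h8 : (0 : ℝ) ≤ Nat.log 2 Z := by positivity
  push_cast
  have h9 : (Nat.log 2 Z : ℝ) ≤ 2 * ((Z : ℝ) ^ e / e) := by nlinarith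
  have h10 : (2 / e + 1) * (Z : ℝ) ^ e = 2 * ((Z : ℝ) ^ e / e) + (Z : ℝ) ^ e := by
    field_simp
  rw [h10]
  linarith

theorem ES43 (h1 : S_ARC) (h2 : S_HBF) (h3 : S_IN) : S_ESK (4 / 3) := by
  intro B ε hε
  set B' : ℝ := |B| + 1 with hB'
  have hB1 : 1 ≤ B' := by
    have := abs_nonneg B
    linarith
  set e : ℝ := ε / (1 + 2 * B') with he
  have he0 : 0 < e := by positivity
  have heε : e * (1 + 2 * B') = ε := by
    rw [he]
    field_simp
  obtain ⟨C1, hC1, H1⟩ := h1 e he0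
  obtain ⟨C2, hC2, H2⟩ := h2 e he0
  refine ⟨2 * (2 * C1 ^ 2 + (2 / e + 1) * (4 * C2 * 2 ^ e)), by positivity, ?_⟩
  intro b X Z hX hZ
  have hXr : (1 : ℝ) ≤ X := by exact_mod_cast hX
  have hX0 : (0 : ℝ) < X := by linarith
  rcases Nat.eq_zero_or_pos Z with hZ0 | hZ0
  · rw [hZ0]
    simp only [show Finset.Icc 1 0 = (∅ : Finset ℕ) from rfl, Finset.sum_empty]
    positivity
  have hZr : (1 : ℝ) ≤ Z := by exact_mod_cast hZ0
  have hZB : (Z : ℝ) ≤ (X : ℝ) ^ B' :=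
    hZ.trans (Real.rpow_le_rpow_of_exponent_le hXr (by
      have := le_abs_self B
      linarith))
  have hZe : (Z : ℝ) ^ e ≤ (X : ℝ) ^ (B' * e) := by
    rw [Real.rpow_mul hX0.le]
    exact Real.rpow_le_rpow (by positivity) hZB he0.le
  refine (decomp (fun m => ‖Ee b X m‖ ^ 2 / m) (fun m => by positivity) Z).trans ?_
  have key : ∀ l ∈ Finset.Icc 1 Z,
      ∑ n ∈ (Finset.Icc 1 (Z / l ^ 2)).filter Squarefree,
        ‖Ee b X (l ^ 2 * n)‖ ^ 2 / ((l ^ 2 * n : ℕ) : ℝ) ≤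
      (2 * C1 ^ 2 + (2 / e + 1) * (4 * C2 * 2 ^ e)) * (X : ℝ) ^ (4 / 3 + ε) * (1 / (l : ℝ) ^ 2) := by
    intro l hl
    rw [Finset.mem_Icc] at hl
    have hl0 : (0 : ℝ) < l := by exact_mod_cast hl.1
    have hl1 : (1 : ℝ) ≤ l := by exact_mod_cast hl.1
    have hWZ : Z / l ^ 2 ≤ Z := Nat.div_le_self _ _
    rw [← Finset.sum_filter_add_sum_filter_not ((Finset.Icc 1 (Z / l ^ 2)).filter Squarefree)
      (fun n : ℕ => (X : ℝ) ^ (2 / 3 : ℝ) < n)]
    -- large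
    have hlarge : ∑ n ∈ ((Finset.Icc 1 (Z / l ^ 2)).filter Squarefree).filter
        (fun n : ℕ => (X : ℝ) ^ (2 / 3 : ℝ) < n),
        ‖Ee b X (l ^ 2 * n)‖ ^ 2 / ((l ^ 2 * n : ℕ) : ℝ) ≤
        (2 / e + 1) * (4 * C2 * 2 ^ e) * (X : ℝ) ^ (4 / 3 + ε) * (1 / (l : ℝ) ^ 2) := by
      have hd := dyad (fun n => ‖∑ p ∈ (QFs b X).filter (fun p => Nat.Coprime p.1 l), cv p n‖ ^ 2)
        (fun n => by positivity) (Z / l ^ 2) ((X : ℝ) ^ (2 / 3 : ℝ))
        (C2 * (2 * X * Z) ^ e * (2 * (X : ℝ) ^ (4 / 3 : ℝ))) (by positivity) (by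
          intro M hM hXM hMW
          have hMr : (1 : ℝ) ≤ M := by exact_mod_cast hM
          have hM0 : (0 : ℝ) < M := by linarith
          have h4 := H2 b X M l hX hM hl.1
          refine h4.trans ?_
          have h5 : ((X : ℝ) * M) ^ e ≤ (2 * X * Z) ^ e := by
            apply Real.rpow_le_rpow (by positivity) _ he0.le
            have h6 : (M : ℝ) ≤ 2 * Z := by
              have : M ≤ 2 * Z := by omega
              exact_mod_cast this
            nlinarith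
          have h6 : ((X : ℝ) + M) * X ≤ 2 * (X : ℝ) ^ (4 / 3 : ℝ) * M := by
            have h7 : (X : ℝ) ^ 2 ≤ (X : ℝ) ^ (4 / 3 : ℝ) * M := by
              have h8 : (X : ℝ) ^ 2 = (X : ℝ) ^ (4 / 3 : ℝ) * (X : ℝ) ^ (2 / 3 : ℝ) := by
                rw [← Real.rpow_add hX0, ← Real.rpow_natCast]
                norm_num
              rw [h8]
              exact mul_le_mul_of_nonneg_left hXM.le (by positivity)
            have h9 : (X : ℝ) ≤ (X : ℝ) ^ (4 / 3 : ℝ) := by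
              conv_lhs => rw [← Real.rpow_one (X : ℝ)]
              exact Real.rpow_le_rpow_of_exponent_le hXr (by norm_num)
            nlinarith
          calc C2 * ((X : ℝ) * M) ^ e * (X + M) * X
              = C2 * ((X : ℝ) * M) ^ e * ((X + M) * X) := by ring
            _ ≤ C2 * (2 * X * Z) ^ e * (2 * (X : ℝ) ^ (4 / 3 : ℝ) * M) := by
                apply mul_le_mul (mul_le_mul_of_nonneg_left h5 hC2.le) h6 (by positivity)
                  (by positivity)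
            _ = C2 * (2 * X * Z) ^ e * (2 * (X : ℝ) ^ (4 / 3 : ℝ)) * M := by ring)
      have hlog := log_bd e he0 Z (Z / l ^ 2) hZ0 hWZ
      have hsum : ∑ n ∈ ((Finset.Icc 1 (Z / l ^ 2)).filter Squarefree).filter
          (fun n : ℕ => (X : ℝ) ^ (2 / 3 : ℝ) < n),
          ‖Ee b X (l ^ 2 * n)‖ ^ 2 / ((l ^ 2 * n : ℕ) : ℝ) =
          (∑ n ∈ ((Finset.Icc 1 (Z / l ^ 2)).filter Squarefree).filter
          (fun n : ℕ => (X : ℝ) ^ (2 / 3 : ℝ) < n),
          ‖∑ p ∈ (QFs b X).filter (fun p => Nat.Coprime p.1 l), cv p n‖ ^ 2 / n) *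
            (1 / (l : ℝ) ^ 2) := by
        rw [Finset.sum_mul]
        refine Finset.sum_congr rfl fun n hn => ?_
        rw [Finset.mem_filter, Finset.mem_filter, Finset.mem_Icc] at hn
        have hn1 : n ≠ 1 := by
          rintro rfl
          have h4 : (1 : ℝ) ≤ (X : ℝ) ^ (2 / 3 : ℝ) := Real.one_le_rpow hXr (by norm_num)
          have h5 := hn.2
          push_cast at h5
          linarith
        have hn0 : (0 : ℝ) < n := by exact_mod_cast hn.1.1.1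
        rw [Ee_eq h3 b X l n hl.1 hn.1.2 hn1]
        push_cast
        field_simp
      rw [hsum]
      apply mul_le_mul_of_nonneg_right _ (by positivity)
      refine hd.trans ?_
      have h4 : ((2 : ℝ) * X * Z) ^ e = 2 ^ e * (X : ℝ) ^ e * (Z : ℝ) ^ e := by
        rw [Real.mul_rpow (by positivity) (by positivity),
          Real.mul_rpow (by positivity) (by positivity)]
      have h5 : (Z : ℝ) ^ e * (Z : ℝ) ^ e * (X : ℝ) ^ e * (X : ℝ) ^ (4 / 3 : ℝ) ≤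
          (X : ℝ) ^ (4 / 3 + ε) := by
        calc (Z : ℝ) ^ e * (Z : ℝ) ^ e * (X : ℝ) ^ e * (X : ℝ) ^ (4 / 3 : ℝ)
            ≤ (X : ℝ) ^ (B' * e) * (X : ℝ) ^ (B' * e) * (X : ℝ) ^ e * (X : ℝ) ^ (4 / 3 : ℝ) := by
              gcongr
          _ = (X : ℝ) ^ (4 / 3 + ε) := by
              rw [← Real.rpow_add hX0, ← Real.rpow_add hX0, ← Real.rpow_add hX0]
              congr 1
              rw [← heε]
              ring
      calc ((Nat.log 2 (Z / l ^ 2) + 1 : ℕ) : ℝ) *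
            (2 * (C2 * (2 * X * Z) ^ e * (2 * (X : ℝ) ^ (4 / 3 : ℝ))))
          ≤ ((2 / e + 1) * (Z : ℝ) ^ e) *
            (2 * (C2 * (2 * X * Z) ^ e * (2 * (X : ℝ) ^ (4 / 3 : ℝ)))) :=
            mul_le_mul_of_nonneg_right hlog (by positivity)
        _ = (2 / e + 1) * (4 * C2 * 2 ^ e) *
            ((Z : ℝ) ^ e * (Z : ℝ) ^ e * (X : ℝ) ^ e * (X : ℝ) ^ (4 / 3 : ℝ)) := by
            rw [h4]
            ring
        _ ≤ (2 / e + 1) * (4 * C2 * 2 ^ e) * (X : ℝ) ^ (4 / 3 + ε) :=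
            mul_le_mul_of_nonneg_left h5 (by positivity)
    -- small
    have hsmall : ∑ n ∈ ((Finset.Icc 1 (Z / l ^ 2)).filter Squarefree).filter
        (fun n : ℕ => ¬ (X : ℝ) ^ (2 / 3 : ℝ) < n),
        ‖Ee b X (l ^ 2 * n)‖ ^ 2 / ((l ^ 2 * n : ℕ) : ℝ) ≤
        2 * C1 ^ 2 * (X : ℝ) ^ (4 / 3 + ε) * (1 / (l : ℝ) ^ 2) := by
      have ht : ∀ n ∈ ((Finset.Icc 1 (Z / l ^ 2)).filter Squarefree).filter
          (fun n : ℕ => ¬ (X : ℝ) ^ (2 / 3 : ℝ) < n),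
          ‖Ee b X (l ^ 2 * n)‖ ^ 2 / ((l ^ 2 * n : ℕ) : ℝ) ≤
          C1 ^ 2 * (X : ℝ) * (X : ℝ) ^ (2 * B' * e) * (1 / (l : ℝ) ^ 2) * (1 / Real.sqrt n) := by
        intro n hn
        rw [Finset.mem_filter, Finset.mem_filter, Finset.mem_Icc] at hn
        obtain ⟨⟨⟨n1, n2⟩, n3⟩, n4⟩ := hn
        have hn0 : (0 : ℝ) < n := by exact_mod_cast n1
        have h4 := H1 b X n l hX n1 hl.1 n3
        have h5 : ((l : ℝ) * n) ≤ Z := by
          have h6 : l * n ≤ Z := by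
            rw [Nat.le_div_iff_mul_le (by positivity [hl.1])] at n2
            calc l * n = n * (l * 1) := by ring
              _ ≤ n * (l * l) := Nat.mul_le_mul_left _ (Nat.mul_le_mul_left _ hl.1)
              _ = n * l ^ 2 := by ring
              _ ≤ Z := n2
          exact_mod_cast h6
        have h6 : ((l : ℝ) * n) ^ e ≤ (X : ℝ) ^ (B' * e) :=
          (Real.rpow_le_rpow (by positivity) h5 he0.le).trans hZe
        have h7 : ‖Ee b X (l ^ 2 * n)‖ ≤ C1 * (X : ℝ) ^ (1 / 2 : ℝ) * (n : ℝ) ^ (1 / 4 : ℝ) *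
            (X : ℝ) ^ (B' * e) :=
          h4.trans (mul_le_mul_of_nonneg_left h6 (by positivity))
        have h8 : ‖Ee b X (l ^ 2 * n)‖ ^ 2 ≤ C1 ^ 2 * X * Real.sqrt n * (X : ℝ) ^ (2 * B' * e) := by
          calc ‖Ee b X (l ^ 2 * n)‖ ^ 2
              ≤ (C1 * (X : ℝ) ^ (1 / 2 : ℝ) * (n : ℝ) ^ (1 / 4 : ℝ) * (X : ℝ) ^ (B' * e)) ^ 2 :=
                pow_le_pow_left₀ (norm_nonneg _) h7 2
            _ = C1 ^ 2 * ((X : ℝ) ^ (1 / 2 : ℝ)) ^ 2 * ((n : ℝ) ^ (1 / 4 : ℝ)) ^ 2 *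
                ((X : ℝ) ^ (B' * e)) ^ 2 := by ring
            _ = C1 ^ 2 * X * Real.sqrt n * (X : ℝ) ^ (2 * B' * e) := by
                congr 1
                · congr 1
                  · congr 1
                    rw [← Real.rpow_natCast, ← Real.rpow_mul hX0.le]
                    norm_num
                  · rw [← Real.rpow_natCast, ← Real.rpow_mul hn0.le, Real.sqrt_eq_rpow]
                    norm_num
                · rw [← Real.rpow_natCast, ← Real.rpow_mul hX0.le]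
                  congr 1
                  push_cast
                  ring
        have h9 : 0 < Real.sqrt n := Real.sqrt_pos.2 hn0
        have h10 : Real.sqrt n * Real.sqrt n = n := Real.mul_self_sqrt hn0.le
        push_cast
        rw [div_le_iff₀ (by positivity)]
        calc ‖Ee b X (l ^ 2 * n)‖ ^ 2 ≤ C1 ^ 2 * X * Real.sqrt n * (X : ℝ) ^ (2 * B' * e) := h8
          _ = C1 ^ 2 * (X : ℝ) * (X : ℝ) ^ (2 * B' * e) * (1 / (l : ℝ) ^ 2) * (1 / Real.sqrt n) *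
              ((l : ℝ) ^ 2 * (Real.sqrt n * Real.sqrt n)) := by
              field_simp
          _ = _ := by rw [h10]
      refine (Finset.sum_le_sum ht).trans ?_
      rw [← Finset.mul_sum]
      have hs : ∑ n ∈ ((Finset.Icc 1 (Z / l ^ 2)).filter Squarefree).filter
          (fun n : ℕ => ¬ (X : ℝ) ^ (2 / 3 : ℝ) < n), 1 / Real.sqrt n ≤
          2 * (X : ℝ) ^ (1 / 3 : ℝ) := by
        calc ∑ n ∈ ((Finset.Icc 1 (Z / l ^ 2)).filter Squarefree).filter
                (fun n : ℕ => ¬ (X : ℝ) ^ (2 / 3 : ℝ) < n), 1 / Real.sqrt n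
            ≤ ∑ n ∈ Finset.Icc 1 ⌊(X : ℝ) ^ (2 / 3 : ℝ)⌋₊, 1 / Real.sqrt n := by
              apply Finset.sum_le_sum_of_subset_of_nonneg
              · intro n hn
                rw [Finset.mem_filter, Finset.mem_filter, Finset.mem_Icc] at hn
                rw [Finset.mem_Icc]
                exact ⟨hn.1.1.1, Nat.le_floor (not_lt.1 hn.2)⟩
              · intro n _ _
                positivity
          _ ≤ 2 * Real.sqrt (⌊(X : ℝ) ^ (2 / 3 : ℝ)⌋₊ : ℝ) := inv_sqrt_sum _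
          _ ≤ 2 * Real.sqrt ((X : ℝ) ^ (2 / 3 : ℝ)) := by
              gcongr
              exact Nat.floor_le (by positivity)
          _ = 2 * (X : ℝ) ^ (1 / 3 : ℝ) := by
              rw [Real.sqrt_eq_rpow, ← Real.rpow_mul hX0.le]
              norm_num
      have h4 : (X : ℝ) * (X : ℝ) ^ (2 * B' * e) * (X : ℝ) ^ (1 / 3 : ℝ) ≤
          (X : ℝ) ^ (4 / 3 + ε) := by
        calc (X : ℝ) * (X : ℝ) ^ (2 * B' * e) * (X : ℝ) ^ (1 / 3 : ℝ)
            = (X : ℝ) ^ (1 : ℝ) * (X : ℝ) ^ (2 * B' * e) * (X : ℝ) ^ (1 / 3 : ℝ) := by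
              rw [Real.rpow_one]
          _ = (X : ℝ) ^ (1 + 2 * B' * e + 1 / 3) := by
              rw [← Real.rpow_add hX0, ← Real.rpow_add hX0]
          _ ≤ (X : ℝ) ^ (4 / 3 + ε) := by
              apply Real.rpow_le_rpow_of_exponent_le hXr
              nlinarith
      calc C1 ^ 2 * (X : ℝ) * (X : ℝ) ^ (2 * B' * e) * (1 / (l : ℝ) ^ 2) * _
          ≤ C1 ^ 2 * (X : ℝ) * (X : ℝ) ^ (2 * B' * e) * (1 / (l : ℝ) ^ 2) *
            (2 * (X : ℝ) ^ (1 / 3 : ℝ)) := mul_le_mul_of_nonneg_left hs (by positivity)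
        _ = 2 * C1 ^ 2 * ((X : ℝ) * (X : ℝ) ^ (2 * B' * e) * (X : ℝ) ^ (1 / 3 : ℝ)) *
            (1 / (l : ℝ) ^ 2) := by ring
        _ ≤ 2 * C1 ^ 2 * (X : ℝ) ^ (4 / 3 + ε) * (1 / (l : ℝ) ^ 2) := by
            gcongr
    calc _ ≤ (2 / e + 1) * (4 * C2 * 2 ^ e) * (X : ℝ) ^ (4 / 3 + ε) * (1 / (l : ℝ) ^ 2) +
          2 * C1 ^ 2 * (X : ℝ) ^ (4 / 3 + ε) * (1 / (l : ℝ) ^ 2) := add_le_add hlarge hsmall
      _ = _ := by ring
  refine (Finset.sum_le_sum key).trans ?_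
  rw [← Finset.mul_sum]
  calc (2 * C1 ^ 2 + (2 / e + 1) * (4 * C2 * 2 ^ e)) * (X : ℝ) ^ (4 / 3 + ε) *
        ∑ l ∈ Finset.Icc 1 Z, 1 / (l : ℝ) ^ 2
      ≤ (2 * C1 ^ 2 + (2 / e + 1) * (4 * C2 * 2 ^ e)) * (X : ℝ) ^ (4 / 3 + ε) * 2 :=
        mul_le_mul_of_nonneg_left (inv_sq_sum Z) (by positivity)
    _ = _ := by ring

end

end Pool.Agent.Y473.QF
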